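import Mathlib
import Pool.Agent.Helper923.HMertens

set_option autoImplicit false

namespace Pool.Agent.V11268.EK

open Finset

/-- Number of `m ≤ M` with `d ∣ a m + b`, when `a` is coprime to `d`. -/
theorem count_bound (a b d M : ℕ) (hd : 0 < d) (hcop : Nat.Coprime a d) :
    |(((Icc 1 M).filter (fun m => d ∣ a * m + b)).card : ℝ) - (M : ℝ) / d| ≤ 1 := by
  have : NeZero d := ⟨hd.ne'⟩
  obtain ⟨v, hv⟩ : ∃ v : ℕ, v = ((-(b : ZMod d)) * (a : ZMod d)⁻¹).val := ⟨_, rfl⟩
  have hav : (a : ZMod d) * (a : ZMod d)⁻¹ = 1 := ZMod.coe_mul_inv_eq_one a hcop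
  have hv' : (v : ZMod d) = (-(b : ZMod d)) * (a : ZMod d)⁻¹ := by
    rw [hv, ZMod.natCast_zmod_val]
  have hiff : ∀ m : ℕ, d ∣ a * m + b ↔ m ≡ v [MOD d] := by
    intro m
    rw [← ZMod.natCast_eq_natCast_iff, ← CharP.cast_eq_zero_iff (ZMod d) d, hv']
    push_cast
    constructor
    · intro h
      have h1 : (a : ZMod d) * m = -b := by linear_combination h
      calc (m : ZMod d) = ((a : ZMod d) * (a : ZMod d)⁻¹) * m := by rw [hav, one_mul]
        _ = (a * m) * (a : ZMod d)⁻¹ := by ring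
        _ = _ := by rw [h1]
    · intro h
      rw [h]
      linear_combination (-(b : ZMod d)) * hav
  have hset : (Icc 1 M).filter (fun m => d ∣ a * m + b) =
      (Ioc 0 M).filter (fun m => m ≡ v [MOD d]) := by
    ext m
    simp only [mem_filter, mem_Icc, mem_Ioc, hiff]
    constructor
    · rintro ⟨⟨h1, h2⟩, h3⟩; exact ⟨⟨by omega, h2⟩, h3⟩
    · rintro ⟨⟨h1, h2⟩, h3⟩; exact ⟨⟨by omega, h2⟩, h3⟩
  have hcard := Nat.Ioc_filter_modEq_card 0 M hd v
  rw [← hset] at hcard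
  have hdq : (0 : ℚ) < d := by exact_mod_cast hd
  have hcard' : ((((Icc 1 M).filter (fun m => d ∣ a * m + b)).card : ℤ) : ℚ) =
      ((max (⌊((M : ℕ) - (v : ℕ)) / (d : ℚ)⌋ - ⌊((0 : ℕ) - (v : ℕ)) / (d : ℚ)⌋) 0 : ℤ) : ℚ) := by
    exact_mod_cast hcard
  have h1 := Int.floor_le (((M : ℕ) - (v : ℕ)) / (d : ℚ))
  have h2 := Int.lt_floor_add_one (((M : ℕ) - (v : ℕ)) / (d : ℚ))
  have h3 := Int.floor_le (((0 : ℕ) - (v : ℕ)) / (d : ℚ))
  have h4 := Int.lt_floor_add_one (((0 : ℕ) - (v : ℕ)) / (d : ℚ))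
  have h5 : ((M : ℕ) - (v : ℕ)) / (d : ℚ) - ((0 : ℕ) - (v : ℕ)) / (d : ℚ) = (M : ℚ) / d := by
    push_cast; ring
  have h6 : (0 : ℚ) ≤ (M : ℚ) / d := by positivity
  have key : |((((Icc 1 M).filter (fun m => d ∣ a * m + b)).card : ℤ) : ℚ) - (M : ℚ) / d| ≤ 1 := by
    rw [hcard']
    push_cast
    push_cast at h1 h2 h3 h4 h5
    rw [abs_le]
    constructor
    · have := le_max_left (((⌊((M : ℚ) - (v : ℚ)) / (d : ℚ)⌋ : ℤ) : ℚ) -
        ((⌊((0 : ℚ) - (v : ℚ)) / (d : ℚ)⌋ : ℤ) : ℚ)) 0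
      linarith
    · rw [sub_le_iff_le_add, max_le_iff]
      constructor <;> linarith
  have key' := key
  rw [← Rat.cast_le (K := ℝ)] at key'
  push_cast at key'
  exact_mod_cast key'

/-- Second moment of the number of prime divisors of `a m + b` from a set `P` of primes. -/
theorem second_moment (a b M y : ℕ) (P : Finset ℕ) (hP : ∀ p ∈ P, p.Prime ∧ p ≤ y ∧ ¬ p ∣ a)
    (hy : y * y ≤ M) (hM : 1 ≤ M) :
    ∑ m ∈ Icc 1 M, (((P.filter (fun p => p ∣ a * m + b)).card : ℝ) - ∑ p ∈ P, (1 : ℝ) / p) ^ 2 ≤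
      M * (3 * (∑ p ∈ P, (1 : ℝ) / p) + 2) := by
  set S : ℝ := ∑ p ∈ P, (1 : ℝ) / p with hS
  have hS0 : 0 ≤ S := sum_nonneg fun p _ => by positivity
  have hPy : (P.card : ℝ) ≤ y := by
    have : P ⊆ Icc 1 y := fun p hp => by
      rw [mem_Icc]; exact ⟨(hP p hp).1.one_le, (hP p hp).2.1⟩
    have := card_le_card this
    rw [Nat.card_Icc, Nat.add_sub_cancel] at this
    exact_mod_cast this
  have hyM : (y : ℝ) * y ≤ M := by exact_mod_cast hy
  have hyM1 : (y : ℝ) ≤ M := by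
    have : y ≤ M := by nlinarith
    exact_mod_cast this
  have hM1 : (1 : ℝ) ≤ M := by exact_mod_cast hM
  have hcp : ∀ p ∈ P, Nat.Coprime a p := fun p hp =>
    ((Nat.Prime.coprime_iff_not_dvd (hP p hp).1).mpr (hP p hp).2.2).symm
  -- first moment
  have hcast : ∀ m : ℕ, ((P.filter (fun p => p ∣ a * m + b)).card : ℝ) =
      ∑ p ∈ P, if p ∣ a * m + b then (1 : ℝ) else 0 := by
    intro m
    rw [← sum_filter, sum_const, nsmul_eq_mul, mul_one]
  have hfirst : M * S - P.card ≤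
      ∑ m ∈ Icc 1 M, ((P.filter (fun p => p ∣ a * m + b)).card : ℝ) := by
    have h1 : ∑ m ∈ Icc 1 M, ((P.filter (fun p => p ∣ a * m + b)).card : ℝ) =
        ∑ p ∈ P, (((Icc 1 M).filter (fun m => p ∣ a * m + b)).card : ℝ) := by
      rw [sum_congr rfl fun m _ => hcast m, sum_comm]
      refine sum_congr rfl fun p _ => ?_
      rw [← sum_filter, sum_const, nsmul_eq_mul, mul_one]
    rw [h1, hS, mul_sum, ← nsmul_one P.card, ← sum_const, ← sum_sub_distrib]
    refine sum_le_sum fun p hp => ?_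
    have h2 := (abs_le.mp (count_bound a b p M (hP p hp).1.pos (hcp p hp))).1
    rw [mul_one_div]
    linarith
  -- second moment
  have hsecond : ∑ m ∈ Icc 1 M, ((P.filter (fun p => p ∣ a * m + b)).card : ℝ) ^ 2 ≤
      M * S + P.card + M * S ^ 2 + (P.card : ℝ) ^ 2 := by
    have h1 : ∑ m ∈ Icc 1 M, ((P.filter (fun p => p ∣ a * m + b)).card : ℝ) ^ 2 =
        ∑ p ∈ P, ∑ q ∈ P, (((Icc 1 M).filter
          (fun m => p ∣ a * m + b ∧ q ∣ a * m + b)).card : ℝ) := by
      have h2 : ∀ m : ℕ, ((P.filter (fun p => p ∣ a * m + b)).card : ℝ) ^ 2 =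
          ∑ p ∈ P, ∑ q ∈ P, if p ∣ a * m + b ∧ q ∣ a * m + b then (1 : ℝ) else 0 := by
        intro m
        rw [hcast, sq, sum_mul_sum]
        refine sum_congr rfl fun p _ => sum_congr rfl fun q _ => ?_
        by_cases h3 : p ∣ a * m + b <;> by_cases h4 : q ∣ a * m + b <;> simp [h3, h4]
      rw [sum_congr rfl fun m _ => h2 m, sum_comm]
      refine sum_congr rfl fun p _ => ?_
      rw [sum_comm]
      refine sum_congr rfl fun q _ => ?_
      rw [← sum_filter, sum_const, nsmul_eq_mul, mul_one]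
    rw [h1]
    have h2 : ∀ p ∈ P, ∀ q ∈ P, (((Icc 1 M).filter
          (fun m => p ∣ a * m + b ∧ q ∣ a * m + b)).card : ℝ) ≤
        (if p = q then (M : ℝ) * (1 / p) + 1 else 0) + (M * ((1 / p) * (1 / q)) + 1) := by
      intro p hp q hq
      have hp0 : (0 : ℝ) < p := by exact_mod_cast (hP p hp).1.pos
      have hq0 : (0 : ℝ) < q := by exact_mod_cast (hP q hq).1.pos
      split_ifs with hpq
      · subst hpq
        have h3 := (abs_le.mp (count_bound a b p M (hP p hp).1.pos (hcp p hp))).2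
        have h4 : (Icc 1 M).filter (fun m => p ∣ a * m + b ∧ p ∣ a * m + b) =
            (Icc 1 M).filter (fun m => p ∣ a * m + b) := by
          refine filter_congr fun m _ => ?_
          exact and_self_iff
        rw [h4, mul_one_div]
        have h5 : (0 : ℝ) ≤ M * ((1 / p) * (1 / p)) := by positivity
        linarith
      · have hcop : Nat.Coprime p q := (Nat.coprime_primes (hP p hp).1 (hP q hq).1).mpr hpq
        have h3 := (abs_le.mp (count_bound a b (p * q) M
          (Nat.mul_pos (hP p hp).1.pos (hP q hq).1.pos)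
          (Nat.Coprime.mul_right (hcp p hp) (hcp q hq)))).2
        have h4 : (Icc 1 M).filter (fun m => p ∣ a * m + b ∧ q ∣ a * m + b) =
            (Icc 1 M).filter (fun m => p * q ∣ a * m + b) := by
          refine filter_congr fun m _ => ?_
          exact ⟨fun h => hcop.mul_dvd_of_dvd_of_dvd h.1 h.2,
            fun h => ⟨(dvd_mul_right _ _).trans h, (dvd_mul_left _ _).trans h⟩⟩
        rw [h4]
        push_cast at h3
        have h5 : (M : ℝ) * ((1 / p) * (1 / q)) = M / (p * q) := by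
          field_simp
        rw [h5]
        linarith
    calc ∑ p ∈ P, ∑ q ∈ P, (((Icc 1 M).filter
          (fun m => p ∣ a * m + b ∧ q ∣ a * m + b)).card : ℝ)
        ≤ ∑ p ∈ P, ∑ q ∈ P, ((if p = q then (M : ℝ) * (1 / p) + 1 else 0) +
            (M * ((1 / p) * (1 / q)) + 1)) :=
          sum_le_sum fun p hp => sum_le_sum fun q hq => h2 p hp q hq
      _ = M * S + P.card + M * S ^ 2 + (P.card : ℝ) ^ 2 := by
          have e1 : ∑ p ∈ P, ∑ q ∈ P, (if p = q then (M : ℝ) * (1 / p) + 1 else 0) =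
              M * S + P.card := by
            rw [hS, mul_sum, ← nsmul_one P.card, ← sum_const, ← sum_add_distrib]
            refine sum_congr rfl fun p hp => ?_
            rw [sum_ite_eq, if_pos hp]
          have e2 : ∑ p ∈ P, ∑ q ∈ P, ((M : ℝ) * ((1 / p) * (1 / q)) + 1) =
              M * S ^ 2 + (P.card : ℝ) ^ 2 := by
            rw [sum_congr rfl fun p _ => sum_add_distrib, sum_add_distrib]
            congr 1
            · rw [hS, sq, sum_mul_sum, mul_sum]
              refine sum_congr rfl fun p _ => ?_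
              rw [mul_sum]
            · simp [sq]
          rw [sum_congr rfl fun p _ => sum_add_distrib, sum_add_distrib, e1, e2]
          ring
  have hexp : ∑ m ∈ Icc 1 M, (((P.filter (fun p => p ∣ a * m + b)).card : ℝ) - S) ^ 2 =
      ∑ m ∈ Icc 1 M, ((P.filter (fun p => p ∣ a * m + b)).card : ℝ) ^ 2 -
      2 * S * ∑ m ∈ Icc 1 M, ((P.filter (fun p => p ∣ a * m + b)).card : ℝ) + M * S ^ 2 := by
    have h1 : ∀ m ∈ Icc 1 M, (((P.filter (fun p => p ∣ a * m + b)).card : ℝ) - S) ^ 2 =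
        ((P.filter (fun p => p ∣ a * m + b)).card : ℝ) ^ 2 -
        2 * S * ((P.filter (fun p => p ∣ a * m + b)).card : ℝ) + S ^ 2 := fun m _ => by ring
    rw [sum_congr rfl h1, sum_add_distrib, sum_sub_distrib, ← mul_sum, sum_const, Nat.card_Icc,
      Nat.add_sub_cancel, nsmul_eq_mul]
  rw [hexp]
  have hPc0 : (0 : ℝ) ≤ P.card := Nat.cast_nonneg _
  have hP2 : (P.card : ℝ) ^ 2 ≤ M := by nlinarith
  have hP1 : (P.card : ℝ) ≤ M := hPy.trans hyM1
  nlinarith [mul_le_mul_of_nonneg_left hfirst hS0, mul_le_mul_of_nonneg_left hP1 hS0]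

end Pool.Agent.V11268.EK
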