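import Mathlib
import Pool.Agent.V11268.EK.Turan

set_option autoImplicit false

namespace Pool.Agent.V11268.EK

open Finset Filter

/-- Sum of reciprocals of the primes up to `y` not dividing `a`, compared with `log log y`. -/
theorem sum_inv_bounds (a : ℕ) (ha : 1 ≤ a) : ∃ C : ℝ, 0 ≤ C ∧ ∀ y : ℕ, 2 ≤ y →
    |∑ p ∈ (Icc 1 y).filter (fun p => p.Prime ∧ ¬ p ∣ a), (1 : ℝ) / p - Real.log (Real.log y)|
      ≤ C := by
  obtain ⟨C, hC0, hC⟩ := Pool.Agent.Helper923.HMertens.mertens_ratio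
  have hl2 : 0 < Real.log 2 := Real.log_pos (by norm_num)
  refine ⟨C / Real.log 2 + |Real.log (Real.log 2)| + 1 + a, by positivity, fun y hy => ?_⟩
  have h1 := abs_le.1 (hC 2 y le_rfl hy)
  have hlx : 0 < Real.log y := Real.log_pos (by exact_mod_cast (by omega : 1 < y))
  rw [Nat.cast_ofNat, Real.log_div hlx.ne' hl2.ne'] at h1
  have h2 : (Icc 1 y).filter Nat.Prime = insert 2 ((Ioc 2 y).filter Nat.Prime) := by
    ext p
    simp only [mem_filter, mem_Icc, mem_insert, mem_Ioc]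
    constructor
    · rintro ⟨⟨h3, h4⟩, h5⟩
      rcases Nat.lt_or_ge 2 p with h | h
      · exact Or.inr ⟨⟨h, h4⟩, h5⟩
      · exact Or.inl (le_antisymm h h5.two_le)
    · rintro (rfl | ⟨⟨h3, h4⟩, h5⟩)
      · exact ⟨⟨by norm_num, hy⟩, Nat.prime_two⟩
      · exact ⟨⟨by omega, h4⟩, h5⟩
  have h3 : (2 : ℕ) ∉ (Ioc 2 y).filter Nat.Prime := by simp
  have hfull : ∑ p ∈ (Icc 1 y).filter Nat.Prime, (1 : ℝ) / p =
      1 / 2 + ∑ p ∈ (Ioc 2 y).filter Nat.Prime, (1 : ℝ) / p := by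
    rw [h2, sum_insert h3]; norm_num
  have hsub : (Icc 1 y).filter (fun p => p.Prime ∧ ¬ p ∣ a) ⊆ (Icc 1 y).filter Nat.Prime := by
    intro p hp
    rw [mem_filter] at hp ⊢
    exact ⟨hp.1, hp.2.1⟩
  have hle : ∑ p ∈ (Icc 1 y).filter (fun p => p.Prime ∧ ¬ p ∣ a), (1 : ℝ) / p ≤
      ∑ p ∈ (Icc 1 y).filter Nat.Prime, (1 : ℝ) / p :=
    sum_le_sum_of_subset_of_nonneg hsub fun _ _ _ => by positivity
  have hge : ∑ p ∈ (Icc 1 y).filter Nat.Prime, (1 : ℝ) / p - a ≤
      ∑ p ∈ (Icc 1 y).filter (fun p => p.Prime ∧ ¬ p ∣ a), (1 : ℝ) / p := by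
    have h4 : ∑ p ∈ (Icc 1 y).filter Nat.Prime, (1 : ℝ) / p =
        ∑ p ∈ (Icc 1 y).filter (fun p => p.Prime ∧ ¬ p ∣ a), (1 : ℝ) / p +
        ∑ p ∈ (Icc 1 y).filter (fun p => p.Prime ∧ p ∣ a), (1 : ℝ) / p := by
      rw [← sum_filter_add_sum_filter_not ((Icc 1 y).filter Nat.Prime) (fun p => p ∣ a),
        filter_filter, filter_filter, add_comm]
    have h5 : ∑ p ∈ (Icc 1 y).filter (fun p => p.Prime ∧ p ∣ a), (1 : ℝ) / p ≤ a := by
      have h6 : (Icc 1 y).filter (fun p => p.Prime ∧ p ∣ a) ⊆ Icc 1 a := by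
        intro p hp
        rw [mem_filter] at hp
        rw [mem_Icc]
        exact ⟨hp.2.1.one_le, Nat.le_of_dvd ha hp.2.2⟩
      have h7 := card_le_card h6
      rw [Nat.card_Icc, Nat.add_sub_cancel] at h7
      have h8 : ∑ p ∈ (Icc 1 y).filter (fun p => p.Prime ∧ p ∣ a), (1 : ℝ) / p ≤
          ∑ p ∈ (Icc 1 y).filter (fun p => p.Prime ∧ p ∣ a), (1 : ℝ) := by
        refine sum_le_sum fun p hp => ?_
        rw [mem_filter] at hp
        have : (1 : ℝ) ≤ p := by exact_mod_cast hp.2.1.one_le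
        rw [div_le_one (by linarith)]
        exact this
      rw [sum_const, nsmul_one] at h8
      exact h8.trans (by exact_mod_cast h7)
    linarith
  have h4 := neg_abs_le (Real.log (Real.log 2))
  have h5 := le_abs_self (Real.log (Real.log 2))
  have ha0 : (0 : ℝ) ≤ a := Nat.cast_nonneg a
  rw [abs_le]
  constructor
  · linarith [h1.1, h1.2]
  · linarith [h1.1, h1.2]

theorem tendsto_loglog : Tendsto (fun N : ℕ => Real.log (Real.log N)) atTop atTop :=
  Real.tendsto_log_atTop.comp (Real.tendsto_log_atTop.comp tendsto_natCast_atTop_atTop)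

/-- For most `m ≤ N / q`, the number `a m + b` has at least `(3/4) log log N` prime factors. -/
theorem few_small (a b q : ℕ) (ha : 1 ≤ a) (hq : 1 ≤ q) : ∀ᶠ N : ℕ in atTop,
    (((Icc 1 (N / q)).filter (fun m => ((a * m + b).primeFactors.card : ℝ) <
      3 / 4 * Real.log (Real.log N))).card : ℝ) ≤ ((N / q : ℕ) : ℝ) / 8 := by
  obtain ⟨C, hC0, hC⟩ := sum_inv_bounds a ha
  have hl4 : 0 < Real.log 4 := Real.log_pos (by norm_num)
  have hev := tendsto_loglog.eventually (eventually_ge_atTop (2048 + 8 * (C + Real.log 4) +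
    3 * (C + Real.log 4)))
  filter_upwards [hev, eventually_ge_atTop (q * (4 * q + 3) ^ 2 + 3)] with N hL hN
  set L : ℝ := Real.log (Real.log N) with hLdef
  obtain ⟨M, hM⟩ : ∃ M, M = N / q := ⟨_, rfl⟩
  rw [← hM]
  obtain ⟨y, hy⟩ : ∃ y, y = Nat.sqrt M := ⟨_, rfl⟩
  have hyM : y * y ≤ M := by rw [hy]; exact Nat.sqrt_le M
  have hMy : M < (y + 1) * (y + 1) := by rw [hy]; exact Nat.lt_succ_sqrt M
  have hNM : N < q * (M + 1) := by
    rw [hM, mul_comm]
    exact Nat.lt_mul_of_div_lt (Nat.lt_succ_self _) hq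
  have hy4 : 4 * q + 2 ≤ y := by
    by_contra hcon
    push Not at hcon
    have h1 : y + 1 ≤ 4 * q + 2 := by omega
    have h2 : (y + 1) * (y + 1) ≤ (4 * q + 2) * (4 * q + 2) := Nat.mul_le_mul h1 h1
    have h3 : M + 1 ≤ (4 * q + 2) * (4 * q + 2) := by omega
    have h4 : q * (M + 1) ≤ q * ((4 * q + 2) * (4 * q + 2)) := Nat.mul_le_mul_left _ h3
    have h5 : q * ((4 * q + 2) * (4 * q + 2)) ≤ q * (4 * q + 3) ^ 2 := by
      apply Nat.mul_le_mul_left
      nlinarith
    omega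
  have hNy : N ≤ y ^ 4 := by
    have h1 : M + 1 ≤ (y + 1) * (y + 1) := hMy
    have h2 : (y + 1) * (y + 1) ≤ 4 * (y * y) := by nlinarith
    have h3 : q * (M + 1) ≤ q * (4 * (y * y)) := Nat.mul_le_mul_left _ (h1.trans h2)
    have h4 : q * (4 * (y * y)) ≤ y * (y * y) := by
      have : q * (4 * (y * y)) = (4 * q) * (y * y) := by ring
      rw [this]
      exact Nat.mul_le_mul_right _ (by omega)
    have h5 : y * (y * y) ≤ y ^ 4 := by
      have : y ^ 4 = y * (y * (y * y)) := by ring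
      rw [this]
      exact Nat.mul_le_mul_left _ (Nat.le_mul_of_pos_left _ (by omega))
    omega
  have hy2 : 2 ≤ y := by omega
  have hM1 : 1 ≤ M := by nlinarith
  have hyN : y ≤ N := by
    have h1 : y ≤ M := by nlinarith
    exact h1.trans (by rw [hM]; exact Nat.div_le_self N q)
  have hly : 0 < Real.log y := Real.log_pos (by exact_mod_cast (by omega : 1 < y))
  have hlN : 0 < Real.log N := Real.log_pos (by exact_mod_cast (by omega : 1 < N))
  have hLy1 : Real.log (Real.log y) ≤ L := by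
    apply Real.log_le_log hly
    exact Real.log_le_log (by exact_mod_cast (by omega : 0 < y)) (by exact_mod_cast hyN)
  have hLy2 : L ≤ Real.log (Real.log y) + Real.log 4 := by
    have h1 : Real.log N ≤ 4 * Real.log y := by
      have h2 : Real.log N ≤ Real.log ((y : ℝ) ^ 4) :=
        Real.log_le_log (by exact_mod_cast (by omega : 0 < N)) (by exact_mod_cast hNy)
      rw [Real.log_pow] at h2
      exact_mod_cast h2
    have h3 : L ≤ Real.log (4 * Real.log y) := Real.log_le_log hlN h1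
    rw [Real.log_mul (by norm_num) hly.ne'] at h3
    linarith
  set P := (Icc 1 y).filter (fun p => p.Prime ∧ ¬ p ∣ a) with hP
  set S : ℝ := ∑ p ∈ P, (1 : ℝ) / p with hS
  have hSb := abs_le.mp (hC y hy2)
  have hS1 : L - (C + Real.log 4) ≤ S := by linarith [hSb.1]
  have hS2 : S ≤ L + C := by linarith [hSb.2]
  have hsm := second_moment a b M y P (fun p hp => by
    rw [hP, mem_filter, mem_Icc] at hp
    exact ⟨hp.2.1, hp.1.2, hp.2.2⟩) hyM hM1
  set Bd := (Icc 1 M).filter (fun m => ((a * m + b).primeFactors.card : ℝ) < 3 / 4 * L) with hBd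
  have hlow : (Bd.card : ℝ) * (L / 8) ^ 2 ≤
      ∑ m ∈ Icc 1 M, (((P.filter (fun p => p ∣ a * m + b)).card : ℝ) - S) ^ 2 := by
    have h1 : (Bd.card : ℝ) * (L / 8) ^ 2 = ∑ m ∈ Bd, (L / 8) ^ 2 := by
      rw [sum_const, nsmul_eq_mul]
    rw [h1]
    refine (sum_le_sum fun m hm => ?_).trans
      (sum_le_sum_of_subset_of_nonneg (filter_subset _ _) fun _ _ _ => sq_nonneg _)
    rw [hBd, mem_filter, mem_Icc] at hm
    have h2 : P.filter (fun p => p ∣ a * m + b) ⊆ (a * m + b).primeFactors := by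
      intro p hp
      rw [mem_filter, hP, mem_filter] at hp
      rw [Nat.mem_primeFactors]
      refine ⟨hp.1.2.1, hp.2, ?_⟩
      have : 1 ≤ a * m := Nat.mul_pos ha hm.1.1
      omega
    have h3 : ((P.filter (fun p => p ∣ a * m + b)).card : ℝ) ≤ (a * m + b).primeFactors.card := by
      exact_mod_cast card_le_card h2
    have h4 : L / 8 ≤ S - ((P.filter (fun p => p ∣ a * m + b)).card : ℝ) := by
      linarith [hm.2]
    have h5 : 0 ≤ L / 8 := by
      have : 0 ≤ 2048 + 8 * (C + Real.log 4) + 3 * (C + Real.log 4) := by positivity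
      linarith
    nlinarith
  have hLpos : 0 < L := by
    have : 0 < 2048 + 8 * (C + Real.log 4) + 3 * (C + Real.log 4) := by positivity
    linarith
  have hM0 : (0 : ℝ) ≤ M := Nat.cast_nonneg M
  have h6 : (Bd.card : ℝ) * (L / 8) ^ 2 ≤ M * (4 * L) := by
    refine (hlow.trans hsm).trans (mul_le_mul_of_nonneg_left ?_ hM0)
    linarith
  have h7 : (Bd.card : ℝ) * L ≤ 256 * M := by
    have h8 : ((Bd.card : ℝ) * L) * L ≤ (256 * M) * L := by nlinarith
    exact le_of_mul_le_mul_right h8 hLpos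
  have h9 : (2048 : ℝ) ≤ L := by
    have : 0 ≤ 8 * (C + Real.log 4) + 3 * (C + Real.log 4) := by positivity
    linarith
  have h10 : (Bd.card : ℝ) * 2048 ≤ 256 * M :=
    (mul_le_mul_of_nonneg_left h9 (Nat.cast_nonneg _)).trans h7
  linarith

end Pool.Agent.V11268.EK
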